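import Pool.Agent.H484.AL.Stm

/-!
# Project AL (helper484): `S_DISJ`, cylinders of words of the same length are disjoint
-/

namespace Pool.Agent.H484.AL

open Finset
open scoped Classical

/-- the equation defining the parameter of `β` in the cylinder of `w` -/
theorem disj_step (c : ℕ) (w : List ℕ) (β θ : ℝ) (hc : 1 ≤ c) (h0 : 0 < θ)
    (h : β * (((qq (c :: w)).1 : ℝ) + ((qq (c :: w)).2 : ℝ) * θ) =
      ((pp (c :: w)).1 : ℝ) + ((pp (c :: w)).2 : ℝ) * θ) :
    0 < 1 / ((c : ℝ) + θ) ∧ 1 / ((c : ℝ) + θ) < 1 ∧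
    β * (((qq w).1 : ℝ) + ((qq w).2 : ℝ) * (1 / ((c : ℝ) + θ))) =
      ((pp w).1 : ℝ) + ((pp w).2 : ℝ) * (1 / ((c : ℝ) + θ)) := by
  have hc' : (1 : ℝ) ≤ (c : ℝ) := by exact_mod_cast hc
  have hpos : 0 < (c : ℝ) + θ := by linarith
  have hgt : 1 < (c : ℝ) + θ := by linarith
  refine ⟨by positivity, by rw [div_lt_one hpos]; exact hgt, ?_⟩
  simp only [qq, pp] at h
  push_cast at h
  have e1 : β * (((qq w).1 : ℝ) + ((qq w).2 : ℝ) * (1 / ((c : ℝ) + θ))) * ((c : ℝ) + θ) =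
      β * (((c : ℝ) + θ) * ((qq w).1 : ℝ) + ((qq w).2 : ℝ)) := by
    field_simp
  have e2 : (((pp w).1 : ℝ) + ((pp w).2 : ℝ) * (1 / ((c : ℝ) + θ))) * ((c : ℝ) + θ) =
      ((c : ℝ) + θ) * ((pp w).1 : ℝ) + ((pp w).2 : ℝ) := by
    field_simp
  have e3 : β * (((c : ℝ) + θ) * ((qq w).1 : ℝ) + ((qq w).2 : ℝ)) =
      ((c : ℝ) + θ) * ((pp w).1 : ℝ) + ((pp w).2 : ℝ) := by
    linarith
  have hne : (c : ℝ) + θ ≠ 0 := hpos.ne'
  apply mul_right_cancel₀ hne
  rw [e1, e2, e3]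

/-- the parameter is unique -/
theorem disj_uniq (w : List ℕ) (β θ ϑ : ℝ)
    (h : β * (((qq w).1 : ℝ) + ((qq w).2 : ℝ) * θ) = ((pp w).1 : ℝ) + ((pp w).2 : ℝ) * θ)
    (h' : β * (((qq w).1 : ℝ) + ((qq w).2 : ℝ) * ϑ) = ((pp w).1 : ℝ) + ((pp w).2 : ℝ) * ϑ) :
    θ = ϑ := by
  have h1 : (θ - ϑ) * (β * ((qq w).2 : ℝ) - ((pp w).2 : ℝ)) = 0 := by linear_combination h - h'
  rcases mul_eq_zero.1 h1 with h2 | h2
  · linarith
  · exfalso
    have h3 : β * ((qq w).1 : ℝ) - ((pp w).1 : ℝ) = 0 := by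
      linear_combination h - θ * h2
    have hd : (((pp w).1 : ℝ) * ((qq w).2 : ℝ) - ((pp w).2 : ℝ) * ((qq w).1 : ℝ)) ^ 2 = 1 := by
      exact_mod_cast det_pq w
    have h4 : ((pp w).1 : ℝ) * ((qq w).2 : ℝ) - ((pp w).2 : ℝ) * ((qq w).1 : ℝ) = 0 := by
      linear_combination ((qq w).1 : ℝ) * h2 - ((qq w).2 : ℝ) * h3
    rw [h4] at hd
    norm_num at hd

theorem t_DISJ : S_DISJ := by
  intro w
  induction w with
  | nil =>
      intro w' β _ _ hl _ _
      have : w'.length = 0 := by simpa using hl.symm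
      exact (List.length_eq_zero_iff.1 this).symm
  | cons c w ih =>
      intro w' β hw hw' hl hI hI'
      cases w' with
      | nil => simp at hl
      | cons c' w' =>
          obtain ⟨θ, h0, h1, h⟩ := hI
          obtain ⟨θ', h0', h1', h'⟩ := hI'
          obtain ⟨a1, a2, a3⟩ := disj_step c w β θ (hw c (by simp)) h0 h
          obtain ⟨b1, b2, b3⟩ := disj_step c' w' β θ' (hw' c' (by simp)) h0' h'
          have hww : w = w' := ih w' β (fun x hx => hw x (by simp [hx]))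
            (fun x hx => hw' x (by simp [hx])) (by simpa using hl)
            ⟨_, a1, a2, a3⟩ ⟨_, b1, b2, b3⟩
          subst hww
          have he := disj_uniq w β _ _ a3 b3
          have hc1 : (0 : ℝ) ≤ (c : ℝ) := Nat.cast_nonneg c
          have hc2 : (0 : ℝ) ≤ (c' : ℝ) := Nat.cast_nonneg c'
          have hs : (c : ℝ) + θ = (c' : ℝ) + θ' := by
            have h5 : (c : ℝ) + θ ≠ 0 := by linarith
            have h6 : (c' : ℝ) + θ' ≠ 0 := by linarith
            field_simp at he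
            linarith
          have k1 : (c : ℝ) < (c' : ℝ) + 1 := by linarith
          have k2 : (c' : ℝ) < (c : ℝ) + 1 := by linarith
          have k3 : c < c' + 1 := by exact_mod_cast k1
          have k4 : c' < c + 1 := by exact_mod_cast k2
          have k5 : c = c' := by omega
          rw [k5]

end Pool.Agent.H484.AL
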