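import Pool.Agent.H484.AL.Stm

/-!
# Project AL (helper484): `S_PASY`, slow variation of `(log N) ^ e loglog N`
-/

namespace Pool.Agent.H484.AL

open Finset
open scoped Classical

theorem t_PASY : S_PASY := by
  intro e H
  have he : (0 : ℝ) < 2 * ((e : ℝ) + 1) := by positivity
  obtain ⟨τ, hτ⟩ : ∃ τ : ℝ, τ = 1 / (2 * ((e : ℝ) + 1)) := ⟨_, rfl⟩
  have hτ0 : 0 < τ := by rw [hτ]; positivity
  have hτ1 : 2 * ((e : ℝ) + 1) * τ = 1 := by rw [hτ]; field_simp
  have hτ2 : τ ≤ 1 / 2 := by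
    have h0 : (0 : ℝ) ≤ e := Nat.cast_nonneg e
    have h1 : 0 ≤ (e : ℝ) * τ := mul_nonneg h0 hτ0.le
    have h2 : 2 * ((e : ℝ) + 1) * τ = 2 * ((e : ℝ) * τ) + 2 * τ := by ring
    linarith
  have hbern : (1 / 2 : ℝ) ≤ (1 - τ) ^ (e + 1) := by
    have h1 := one_add_mul_le_pow (show (-2 : ℝ) ≤ -τ by linarith) (e + 1)
    have h2 : (1 : ℝ) + ((e + 1 : ℕ) : ℝ) * (-τ) = 1 / 2 := by
      push_cast
      linarith
    rw [h2] at h1
    exact h1
  have hlogH : 0 ≤ Real.log (H : ℝ) := Real.log_natCast_nonneg H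
  obtain ⟨M, hM⟩ : ∃ M : ℝ, M = 2 * ((e : ℝ) + 1) * Real.log H + Real.exp (2 * ((e : ℝ) + 1)) :=
    ⟨_, rfl⟩
  refine ⟨⌈Real.exp M⌉₊, fun N hN h h1 hH hdvd => ?_⟩
  have hNM : Real.exp M ≤ N := (Nat.le_ceil _).trans (by exact_mod_cast hN)
  have hN0 : (0 : ℝ) < N := lt_of_lt_of_le (Real.exp_pos _) hNM
  have hMl : M ≤ Real.log N := (Real.le_log_iff_exp_le hN0).2 hNM
  obtain ⟨l, hl⟩ : ∃ l : ℝ, l = Real.log N := ⟨_, rfl⟩
  rw [← hl] at hMl ⊢
  have hh0 : (0 : ℝ) < h := by exact_mod_cast h1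
  have hcast : ((N / h : ℕ) : ℝ) = (N : ℝ) / h := Nat.cast_div hdvd hh0.ne'
  have hlog : Real.log ((N / h : ℕ) : ℝ) = l - Real.log h := by
    rw [hcast, Real.log_div hN0.ne' hh0.ne', hl]
  have hlh : Real.log h ≤ Real.log H := Real.log_le_log hh0 (by exact_mod_cast hH)
  have hprod0 : 0 ≤ 2 * ((e : ℝ) + 1) * Real.log H := mul_nonneg he.le hlogH
  have hl1 : Real.exp (2 * ((e : ℝ) + 1)) ≤ l := by linarith
  have hlpos : 0 < l := lt_of_lt_of_le (Real.exp_pos _) hl1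
  have hloglog : 2 * ((e : ℝ) + 1) ≤ Real.log l := (Real.le_log_iff_exp_le hlpos).2 hl1
  have hll0 : 0 ≤ Real.log l := he.le.trans hloglog
  -- `log H ≤ τ l`
  have hA : Real.log H ≤ τ * l := by
    have h2 : 2 * ((e : ℝ) + 1) * Real.log H ≤ l := by
      have := Real.exp_pos (2 * ((e : ℝ) + 1))
      linarith
    have h3 := mul_le_mul_of_nonneg_left h2 hτ0.le
    have h4 : τ * (2 * ((e : ℝ) + 1) * Real.log H) = Real.log H := by
      have : τ * (2 * ((e : ℝ) + 1) * Real.log H) = (2 * ((e : ℝ) + 1) * τ) * Real.log H := by ring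
      rw [this, hτ1, one_mul]
    rw [h4] at h3
    exact h3
  have hge : (1 - τ) * l ≤ l - Real.log h := by
    have : (1 - τ) * l = l - τ * l := by ring
    linarith
  have h1τ : 0 < 1 - τ := by linarith
  have hpos : 0 < (1 - τ) * l := mul_pos h1τ hlpos
  have hlogge : (1 - τ) * Real.log l ≤ Real.log (l - Real.log h) := by
    have h2 : Real.log ((1 - τ) * l) ≤ Real.log (l - Real.log h) := Real.log_le_log hpos hge
    rw [Real.log_mul h1τ.ne' hlpos.ne'] at h2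
    have h3 : -(1 : ℝ) ≤ Real.log (1 - τ) := by
      have h4 := Real.one_sub_inv_le_log_of_pos h1τ
      have h5 : (1 - τ)⁻¹ ≤ 2 := by
        rw [inv_le_comm₀ h1τ (by norm_num)]
        linarith
      linarith
    have h4 : 1 ≤ τ * Real.log l := by
      have h5 := mul_le_mul_of_nonneg_left hloglog hτ0.le
      have h6 : τ * (2 * ((e : ℝ) + 1)) = 1 := by rw [mul_comm]; exact hτ1
      rw [h6] at h5
      exact h5
    have h5 : (1 - τ) * Real.log l = Real.log l - τ * Real.log l := by ring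
    linarith
  refine ⟨mul_nonneg (pow_nonneg hlpos.le e) hll0, ?_⟩
  rw [hlog]
  calc (1 / 2) * (l ^ e * Real.log l)
      ≤ (1 - τ) ^ (e + 1) * (l ^ e * Real.log l) :=
        mul_le_mul_of_nonneg_right hbern (mul_nonneg (pow_nonneg hlpos.le e) hll0)
    _ = ((1 - τ) * l) ^ e * ((1 - τ) * Real.log l) := by rw [mul_pow, pow_succ]; ring
    _ ≤ (l - Real.log h) ^ e * Real.log (l - Real.log h) := by
        refine mul_le_mul (pow_le_pow_left₀ hpos.le hge e) hlogge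
          (mul_nonneg h1τ.le hll0) (pow_nonneg (hpos.le.trans hge) e)

end Pool.Agent.H484.AL
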